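import Mathlib
import Pool.Agent.Lib.H69.Transvection

namespace Pool.Agent.Results.MP_5b5d66_al.HomologyClasses

open Pool.Agent.Lib.H69.Transvection

open scoped Classical in
/-- Let `Q` be a set with a product (think of the Dehn quandle `D_g`), let `V` be a free abelian
group with an alternating form `ω` (think of `H₁(S_g; ℤ)` with the algebraic intersection form),
and let `h : Q → V` satisfy `h (a * b) = ±(h a + ω (h a) (h b) • h b)` (think of `h α = [α]` for
some choice of orientations; this is the action of Dehn twists on homology).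

If `u = ∑ n_a a` is an idempotent of the integral quandle ring `ℤ[Q]`, and if the total
coefficient in `u` of the elements `a` with `h a = ± x` and that of the elements with `h a = ± y`
are both nonzero, then `ω x y = 0`.

For `Q = D_1` (the torus) the map `h` is injective up to sign and `i(α, β) = |ω(h α, h β)|`, so
every nonzero idempotent of `ℤ[D_1]` is supported on a single curve. -/
theorem result {Q V : Type*} [Mul Q] [AddCommGroup V] [Module.Free ℤ V]
    (ω : V →+ V →+ ℤ) (hω : ∀ x, ω x x = 0) (h : Q → V)
    (hmul : ∀ a b : Q, h (a * b) = h a + ω (h a) (h b) • h b ∨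
      h (a * b) = -(h a + ω (h a) (h b) • h b))
    (u : MonoidAlgebra ℤ Q) (hu : u * u = u) (x y : V)
    (hx : ∑ a ∈ u.coeff.support with h a = x ∨ h a = -x, u.coeff a ≠ 0)
    (hy : ∑ a ∈ u.coeff.support with h a = y ∨ h a = -y, u.coeff a ≠ 0) : ω x y = 0 := by
  let p : Q →ₙ* TQ ω :=
    { toFun := fun a => mk ω (h a)
      map_mul' := by
        intro a b
        rw [mk_mul_mk, mk_eq_mk]
        exact hmul a b }
  set v : MonoidAlgebra ℤ (TQ ω) := MonoidAlgebra.mapDomain p u with hv
  have hvv : v * v = v := by
    rw [hv, ← MonoidAlgebra.mapDomain_mul, hu]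
  have hcoef : ∀ z : V, v.coeff (mk ω z) =
      ∑ a ∈ u.coeff.support with h a = z ∨ h a = -z, u.coeff a := by
    intro z
    have h1 : v.coeff = Finsupp.mapDomain p u.coeff := rfl
    rw [h1, Finsupp.mapDomain, Finsupp.sum_apply, Finsupp.sum, Finset.sum_filter]
    refine Finset.sum_congr rfl fun a _ => ?_
    rw [Finsupp.single_apply]
    refine if_congr ?_ rfl rfl
    exact mk_eq_mk
  refine idempotent_orthogonal ω hω v hvv x y ?_ ?_
  · rw [hcoef]; convert hx
  · rw [hcoef]; convert hy

end Pool.Agent.Results.MP_5b5d66_al.HomologyClasses
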