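import Mathlib
import Pool.Agent.Lib.H73.TwistSystem

/-!
# Idempotents of the integral quandle ring of a twist system

The Dehn quandle `D_g`, with Dehn twists, geometric intersection numbers and hyperbolic lengths, is
a twist system by published theorems (see the fields of `TwistSystem`).
-/

namespace Pool.Agent.Results.MP_5b5d66_al.TwistSystems

open Pool.Agent.Lib.H73.Twist

/-- Let `C` be a twist system on `D` and give `D` the product `x * y = T_y(x)`. Every nonzero
idempotent of the integral quandle ring `ℤ[D]` is supported on pairwise disjoint curves, and its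
coefficients add up to `1`. -/
theorem result {D : Type*} [Mul D] (C : TwistSystem D) (hmul : ∀ x y : D, x * y = C.T y x)
    (u : MonoidAlgebra ℤ D) (hu : u * u = u) (hne : u ≠ 0) :
    (∀ x ∈ u.coeff.support, ∀ y ∈ u.coeff.support, C.i x y = 0) ∧
      ∑ x ∈ u.coeff.support, u.coeff x = 1 :=
  ⟨idempotent_disjoint C hmul u hu, idempotent_sum C hmul u hu hne⟩

end Pool.Agent.Results.MP_5b5d66_al.TwistSystems
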